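import Mathlib
import Pool.Agent.Q147.ProdApply

/-!
# MP_bddfa7_gt : products of so-bounded balleans are so-bounded
-/

namespace Pool.Agent.Results.MP_bddfa7_gt.SoBoundedProducts

open Set Pool.Agent.Q147.ProdCore Pool.Agent.Q147.ProdApply

universe u v

/-- `f` is slowly oscillating: for every entourage `E` and `ε > 0` there is a bounded set `B` such
that `|f u - f v| < ε` for all `u, v ∈ E[x]` and all `x ∉ B`. -/
def SlowlyOscillating {X : Type u} (c : Coarse X) (f : X → ℝ) : Prop :=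
  ∀ E ∈ c.ent, ∀ ε : ℝ, 0 < ε → ∃ B, c.Bounded B ∧
    ∀ x, x ∉ B → ∀ a b, (x, a) ∈ E → (x, b) ∈ E → |f a - f b| < ε

/-- `X` is so-bounded: every slowly oscillating function is bounded off a bounded set. -/
def SoBounded {X : Type u} (c : Coarse X) : Prop :=
  ∀ f : X → ℝ, SlowlyOscillating c f → ∃ B, c.Bounded B ∧ ∃ K : ℝ, ∀ x, x ∉ B → |f x| ≤ K

/-- The product of two so-bounded balleans is so-bounded. -/
theorem result (X : Type u) (Y : Type v) (c : Coarse X) (d : Coarse Y) (hc : SoBounded c)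
    (hd : SoBounded d) : SoBounded (c.prod d) := by
  intro f hf
  obtain ⟨B, hB, C, hC, K, hK⟩ := core_apply c.ent d.ent {B | c.Bounded B} {C | d.Bounded C} f
    ⟨_, c.diag, fun _ => rfl⟩ ⟨_, d.diag, fun _ => rfl⟩
    (fun B hB B' h => bounded_sub c hB h) (fun B hB B' hB' => bounded_union c hB hB')
    (fun B hB B' h => bounded_sub d hB h) (fun B hB B' hB' => bounded_union d hB hB')
    (fun B hB => bounded_base c hB) (fun C hC => bounded_base d hC)
    (by
      intro E hE F hF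
      obtain ⟨W, hW, h⟩ := hf _ ⟨E, hE, F, hF, subset_rfl⟩ 1 one_pos
      obtain ⟨B, C, hB, hC, hWBC⟩ := bounded_prod hW
      refine ⟨B, hB, C, hC, 1, ?_⟩
      intro x y hxy a b s t h1 h2 h3 h4
      exact (h (x, y) (fun h => hxy (hWBC h)) (a, s) (b, t) ⟨h1, h3⟩ ⟨h2, h4⟩).le)
    (by
      intro g hg
      apply hc
      intro E hE ε hε
      obtain ⟨W, hW, h⟩ := hf _ ⟨E, hE, _, d.diag, subset_rfl⟩ (ε / 2) (half_pos hε)
      obtain ⟨B, C, hB, hC, hWBC⟩ := bounded_prod hW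
      refine ⟨B, hB, ?_⟩
      intro x hx a b ha hb
      have h1 : |g a - g b| ≤ ε / 2 := by
        refine hg a b _ (half_pos hε).le fun y => ?_
        exact (h (x, y) (fun h => hx (hWBC h).1) (a, y) (b, y) ⟨ha, rfl⟩ ⟨hb, rfl⟩).le
      linarith)
    (by
      intro g hg
      apply hd
      intro F hF ε hε
      obtain ⟨W, hW, h⟩ := hf _ ⟨_, c.diag, F, hF, subset_rfl⟩ (ε / 2) (half_pos hε)
      obtain ⟨B, C, hB, hC, hWBC⟩ := bounded_prod hW
      refine ⟨C, hC, ?_⟩
      intro y hy a b ha hb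
      have h1 : |g a - g b| ≤ ε / 2 := by
        refine hg a b _ (half_pos hε).le fun x => ?_
        exact (h (x, y) (fun h => hy (hWBC h).2) (x, a) (x, b) ⟨rfl, ha⟩ ⟨rfl, hb⟩).le
      linarith)
  refine ⟨B ×ˢ C, prod_bounded hB hC, K, ?_⟩
  rintro ⟨x, y⟩ hxy
  exact hK x y fun h => hxy h

end Pool.Agent.Results.MP_bddfa7_gt.SoBoundedProducts
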